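import Pool.Agent.H878.Levy11
import Pool.Agent.H878.Levy16

/-!
One free action of one Boolean Levy group which is of Type III for one measure and of
Type II infinity for another.

The group is `G = E ⧸ N`, where `E` is the `ℓ¹`-sum of finite elementary abelian `2`-groups
`K_j` with the norms `ε_j √(Hamming weight)`, and `N` is a discrete subgroup which identifies each
`K_j` with a Hadamard-type subgroup of `K_{j+1}`.  It acts on a Borel fundamental domain of `N` in
an `E`-invariant Borel subset of `∏ K_j`.
-/

set_option autoImplicit false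

open MeasureTheory Filter Topology

namespace Pool.Agent.Results.MP_9152e2_an.FreeActionBothTypes

/-- `m` is the normalised Haar measure of the subgroup `K`, viewed as a Borel measure on `G` -/
def IsHaarProb {G : Type} [Group G] [MeasurableSpace G] (K : Subgroup G) (m : Measure G) : Prop :=
  IsProbabilityMeasure m ∧ m (K : Set G)ᶜ = 0 ∧ ∀ g ∈ K, m.map (fun x => g * x) = m

/-- `K_0 ⊆ K_1 ⊆ …` are compact subgroups of `G` with dense union which, for a compatible
right-invariant metric and their normalised Haar measures, form a Levy family -/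
def IsLevySequence {G : Type} [Group G] [τ : TopologicalSpace G] [MeasurableSpace G]
    (K : ℕ → Subgroup G) : Prop :=
  ∃ (d : MetricSpace G) (m : ℕ → Measure G),
    Monotone K ∧ (∀ n, IsCompact (K n : Set G)) ∧ Dense (⋃ n, (K n : Set G)) ∧
    d.toUniformSpace.toTopologicalSpace = τ ∧
    (∀ x y g : G, d.dist (x * g) (y * g) = d.dist x y) ∧
    (∀ n, IsHaarProb (K n) (m n)) ∧
    ∀ A : ℕ → Set G, (∀ n, MeasurableSet (A n)) → (∀ n, A n ⊆ K n) →
      0 < liminf (fun n => m n (A n)) atTop →
      ∀ ε : ℝ, 0 < ε → Tendsto (fun n => m n {x | ∃ y ∈ A n, d.dist x y < ε}) atTop (𝓝 1)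

/-- `G` is a Levy group -/
def IsLevyGroup (G : Type) [Group G] [TopologicalSpace G] [MeasurableSpace G] : Prop :=
  IsTopologicalGroup G ∧ PolishSpace G ∧ BorelSpace G ∧ ∃ K : ℕ → Subgroup G, IsLevySequence K

/-- a spatial nonsingular action of `G` on the standard Borel space `X` with the non-zero
non-atomic `σ`-finite measure `μ` -/
def IsSpatialNonsingular (G X : Type) [Group G] [MeasurableSpace G] [MeasurableSpace X]
    [MulAction G X] (μ : Measure X) : Prop :=
  StandardBorelSpace X ∧ Measurable (fun p : G × X => p.1 • p.2) ∧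
    μ ≠ 0 ∧ SigmaFinite μ ∧ (∀ x, μ {x} = 0) ∧
    ∀ g : G, μ.map (fun x => g • x) ≪ μ ∧ μ ≪ μ.map (fun x => g • x)

/-- every invariant Borel set is null or conull -/
def IsErgodic (G X : Type) [Group G] [MeasurableSpace X] [MulAction G X] (μ : Measure X) : Prop :=
  ∀ A : Set X, MeasurableSet A → (∀ g : G, (fun x => g • x) ⁻¹' A = A) → μ A = 0 ∨ μ Aᶜ = 0

/-- Type III: spatial, nonsingular, ergodic, and without equivalent `σ`-finite invariant measure -/
def IsTypeIII (G X : Type) [Group G] [MeasurableSpace G] [MeasurableSpace X]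
    [MulAction G X] (μ : Measure X) : Prop :=
  IsSpatialNonsingular G X μ ∧ IsErgodic G X μ ∧
    ¬ ∃ m : Measure X, SigmaFinite m ∧ (∀ g : G, m.map (fun x => g • x) = m) ∧ m ≪ μ ∧ μ ≪ m

/-- Type II infinity: spatial, ergodic, preserving the infinite `σ`-finite non-atomic measure
`μ` -/
def IsTypeIIInf (G X : Type) [Group G] [MeasurableSpace G] [MeasurableSpace X]
    [MulAction G X] (μ : Measure X) : Prop :=
  StandardBorelSpace X ∧ Measurable (fun p : G × X => p.1 • p.2) ∧
    μ Set.univ = ⊤ ∧ SigmaFinite μ ∧ (∀ x, μ {x} = 0) ∧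
    (∀ g : G, μ.map (fun x => g • x) = μ) ∧ IsErgodic G X μ

open H878L

theorem GG_add_self (g : GG) : g + g = 0 := by
  obtain ⟨e, rfl⟩ := QuotientAddGroup.mk_surjective g
  rw [← QuotientAddGroup.mk_add]
  have h : e + e = 0 := by
    ext i
    have h1 : (e + e : EE) i = e i + e i := rfl
    have h2 : ∀ x : KK i, x + x = 0 := by
      intro x
      funext a
      exact zmod2_add_self (x a)
    rw [h1, h2]
    rfl
  rw [h]
  rfl

theorem actG_free {g : GG} {x : XX} (h : actG g x = x) : g = 0 := by
  obtain ⟨e, rfl⟩ := QuotientAddGroup.mk_surjective g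
  rw [actG_mk] at h
  have h1 : rr (x.1 + cE e) = x.1 := congrArg Subtype.val h
  obtain ⟨-, c, hc, h2⟩ := rr_spec (Z1_add_E (DD_sub x.2) e)
  have h3 : cE e = -c := by
    rw [h1] at h2
    have h4 : x.1 + (cE e + c) = x.1 + 0 := by rw [add_zero, ← add_assoc]; exact h2.symm
    exact eq_neg_of_add_eq_zero_left (add_left_cancel h4)
  rw [QuotientAddGroup.eq_zero_iff]
  change cE e ∈ NN
  rw [h3]
  exact NN.neg_mem hc

/-- **Theorem.** There are an abelian Levy group `G` all of whose elements have order at most `2`,
whose Levy sequence of subgroups can be taken to consist of finite groups, a free Borel action of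
`G` on a standard Borel space `X`, and two measures on `X` such that this action is of Type III for
one of them and of Type II infinity for the other. -/
theorem result : ∃ (G : Type) (_ : CommGroup G) (_ : TopologicalSpace G) (_ : MeasurableSpace G)
    (X : Type) (_ : MeasurableSpace X) (_ : MulAction G X) (μ ν : Measure X),
    IsLevyGroup G ∧ IsTypeIII G X μ ∧ IsTypeIIInf G X ν ∧
      (∀ g : G, g * g = 1) ∧
      (∃ K : ℕ → Subgroup G, IsLevySequence K ∧ ∀ n, (K n : Set G).Finite) ∧
      ∀ (g : G) (x : X), g • x = x → g = 1 := by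
  let act : MulAction (Multiplicative GG) XX :=
    { smul := fun g x => actG g.toAdd x
      one_smul := fun x => actG_zero x
      mul_smul := fun g h x => actG_add g.toAdd h.toAdd x }
  let ms : MeasurableSpace (Multiplicative GG) := (inferInstance : MeasurableSpace GG)
  have hbs : BorelSpace (Multiplicative GG) := (inferInstance : BorelSpace GG)
  have hseq : IsLevySequence (G := Multiplicative GG)
      (fun n => AddSubgroup.toSubgroup (Kn n)) := by
    refine ⟨(inferInstance : MetricSpace GG), mG, ?_, ?_, ?_, rfl, ?_, ?_, ?_⟩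
    · intro a b hab x hx
      exact Kn_mono hab hx
    · intro n
      exact (Kn_finite n).isCompact
    · exact Kn_dense
    · intro x y g
      exact dist_add_right (M := GG) x y g
    · intro n
      refine ⟨inferInstanceAs (IsProbabilityMeasure (mG n)), mG_supp n, fun g hg => mG_inv n hg⟩
    · intro A hA _ hlim ε hε
      exact levy_main A hA hlim hε
  refine ⟨Multiplicative GG, inferInstance, inferInstance, ms, XX, inferInstance, act, tX nu,
    tX lam, ⟨inferInstance, (inferInstance : PolishSpace GG), hbs, _, hseq⟩, ?_, ?_, ?_,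
    ⟨_, hseq, fun n => Kn_finite n⟩, ?_⟩
  · refine ⟨⟨inferInstance, actG_meas, tX_ne_zero nu_QI nu_Z1 (IsProbabilityMeasure.ne_zero nu),
      ?_, ?_, ?_⟩, ?_, ?_⟩
    · have : IsFiniteMeasure (tX nu) := by
        refine ⟨?_⟩
        rw [tX_apply]; exact measure_lt_top _ _
      infer_instance
    · intro x
      rw [tX_apply, Set.image_singleton]
      exact nu_atom _
    · intro g
      exact ⟨tX_qi nu_QI _, tX_qi' nu_QI _⟩
    · intro A hA hinv
      refine erg_of ?_ hA ?_
      · intro B hB hBinv
        rcases zero_one bj hB hBinv with h | h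
        · exact Or.inl h
        · exact Or.inr ((prob_compl_eq_zero_iff hB).2 h)
      · intro g x hx
        have := hinv (Multiplicative.ofAdd g)
        rw [← this] at hx
        exact hx
    · rintro ⟨m, hm, hinv, h1, h2⟩
      exact no_inv m (fun g => hinv (Multiplicative.ofAdd g)) h1 h2
  · refine ⟨inferInstance, actG_meas, tX_infinite, inferInstance, ?_, ?_, ?_⟩
    · intro x
      rw [tX_apply, Set.image_singleton]
      exact lam_atom _
    · intro g
      exact tX_inv _
    · intro A hA hinv
      refine erg_of lam_01 hA ?_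
      intro g x hx
      have := hinv (Multiplicative.ofAdd g)
      rw [← this] at hx
      exact hx
  · intro g
    exact GG_add_self g.toAdd
  · intro g x h
    exact actG_free (g := g.toAdd) h

end Pool.Agent.Results.MP_9152e2_an.FreeActionBothTypes
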